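import Mathlib
import Pool.Agent.Helper72_Shell.Radial
import Pool.Agent.Helper72_Shell.Build
import Pool.Agent.Helper72_Shell.Glue

set_option autoImplicit false

open Real Filter Topology Set MeasureTheory InnerProductSpace Laplacian

namespace Pool.Agent.BEC.Shell

/-- `u` is a classical solution of `u_tt - Δ u + a |u_t|^α u_t = 0` on the spherical shell
`{x ∈ ℝ³ : r₀ < ‖x‖ < r₁}` with homogeneous Dirichlet conditions, for `t ≥ 0`. -/
structure IsClassicalSolution (a α r₀ r₁ : ℝ) (u : ℝ → EuclideanSpace ℝ (Fin 3) → ℝ) : Prop where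
  smooth : ∃ U : Set (ℝ × EuclideanSpace ℝ (Fin 3)), IsOpen U ∧
    {z | 0 ≤ z.1 ∧ r₀ ≤ ‖z.2‖ ∧ ‖z.2‖ ≤ r₁} ⊆ U ∧ ContDiffOn ℝ 2 (fun z => u z.1 z.2) U
  pde : ∀ (t : ℝ) (x : EuclideanSpace ℝ (Fin 3)), 0 < t → r₀ < ‖x‖ → ‖x‖ < r₁ →
    iteratedDeriv 2 (fun s => u s x) t - (Δ (u t)) x +
      a * (|deriv (fun s => u s x) t| ^ α * deriv (fun s => u s x) t) = 0
  inner : ∀ (t : ℝ) (x : EuclideanSpace ℝ (Fin 3)), 0 ≤ t → ‖x‖ = r₀ → u t x = 0
  outer : ∀ (t : ℝ) (x : EuclideanSpace ℝ (Fin 3)), 0 ≤ t → ‖x‖ = r₁ → u t x = 0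

/-- `u` is radial in the space variable. -/
def IsRadial (u : ℝ → EuclideanSpace ℝ (Fin 3) → ℝ) : Prop :=
  ∀ (t : ℝ) (x y : EuclideanSpace ℝ (Fin 3)), ‖x‖ = ‖y‖ → u t x = u t y

/-- The energy `E(t) = ∫ (u_t² + |∇u|²) dx` over the shell `r₀ < ‖x‖ < r₁`. -/
noncomputable def energy (r₀ r₁ : ℝ) (u : ℝ → EuclideanSpace ℝ (Fin 3) → ℝ) (t : ℝ) : ℝ :=
  ∫ x in {x : EuclideanSpace ℝ (Fin 3) | r₀ < ‖x‖ ∧ ‖x‖ < r₁},
    ((deriv (fun s => u s x) t) ^ 2 + ‖fderiv ℝ (u t) x‖ ^ 2)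

open Pool.Agent.Helper72_Shell

/-- the constant in the reduction to one dimension -/
noncomputable def c3 : ℝ := 3 * volume.real (Metric.ball (0 : EuclideanSpace ℝ (Fin 3)) 1)

theorem c3_pos : 0 < c3 := by
  unfold c3
  have : 0 < volume.real (Metric.ball (0 : EuclideanSpace ℝ (Fin 3)) 1) := by
    apply ENNReal.toReal_pos
    · exact (Metric.measure_ball_pos volume _ one_pos).ne'
    · exact measure_ball_lt_top.ne
  positivity

theorem energy_eq {r₀ r₁ t : ℝ} (h0 : 0 < r₀) (h01 : r₀ < r₁) {u : ℝ → E3 → ℝ} {F : ℝ → ℝ → ℝ}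
    {A B : ℝ → ℝ} (hu : ∀ (s : ℝ) (x : E3), x ≠ 0 → u s x = F s ‖x‖ / ‖x‖)
    (hA : ∀ r ∈ Icc r₀ r₁, HasDerivAt (fun s => F s r) (A r) t)
    (hB : ∀ r ∈ Icc r₀ r₁, HasDerivAt (F t) (B r) r)
    (cA : ContinuousOn A (Icc r₀ r₁)) (cB : ContinuousOn B (Icc r₀ r₁))
    (hF0 : F t r₀ = 0) (hF1 : F t r₁ = 0) :
    energy r₀ r₁ u t = c3 * ∫ r in r₀..r₁, (A r ^ 2 + B r ^ 2) := by
  unfold energy c3
  have hm : MeasurableSet {x : E3 | r₀ < ‖x‖ ∧ ‖x‖ < r₁} := by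
    apply IsOpen.measurableSet
    exact (isOpen_lt continuous_const continuous_norm).inter
      (isOpen_lt continuous_norm continuous_const)
  rw [← dirichlet_eq h0 h01 hB cA cB hF0 hF1, ← integral_shell _ h0 h01]
  apply setIntegral_congr_fun hm
  intro x hx
  have hx0 : 0 < ‖x‖ := h0.trans hx.1
  have hxn : x ≠ 0 := norm_pos_iff.mp hx0
  have hI : ‖x‖ ∈ Icc r₀ r₁ := ⟨hx.1.le, hx.2.le⟩
  have e1 : deriv (fun s => u s x) t = A ‖x‖ / ‖x‖ := by
    have h1 : (fun s => u s x) = fun s => F s ‖x‖ / ‖x‖ := funext fun s => hu s x hxn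
    rw [h1]
    exact ((hA ‖x‖ hI).div_const ‖x‖).deriv
  have e2 : ‖fderiv ℝ (u t) x‖ = |(B ‖x‖ * ‖x‖ - F t ‖x‖ * 1) / ‖x‖ ^ 2| := by
    have h1 : HasDerivAt (fun r => F t r / r) ((B ‖x‖ * ‖x‖ - F t ‖x‖ * 1) / ‖x‖ ^ 2) ‖x‖ :=
      (hB ‖x‖ hI).div (hasDerivAt_id ‖x‖) hx0.ne'
    have h2 := hasFDerivAt_radial hxn h1
    have h3 : u t =ᶠ[𝓝 x] fun y => F t ‖y‖ / ‖y‖ := by
      filter_upwards [isOpen_ne.mem_nhds hxn] with y hy
      exact hu t y hy
    rw [(h2.congr_of_eventuallyEq h3).fderiv, norm_smul, innerSL_apply_norm, norm_div, norm_norm,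
      div_mul_cancel₀ _ hx0.ne', Real.norm_eq_abs]
  simp only
  rw [e1, e2]

theorem bw_eq {r₀ α ℓ r : ℝ} (hℓ : 0 < ℓ) (h1 : r₀ ≤ r) (h2 : r ≤ r₀ + ℓ) :
    bw r₀ α ℓ (r - r₀) = (r₀ / r) ^ α := by
  unfold bw
  rw [fold_eq hℓ (by linarith) (by linarith), add_sub_cancel]

/-- Existence of a nontrivial classical radial solution. -/
theorem exists_solution {a α r₀ r₁ : ℝ} (h0 : 0 < r₀) (h01 : r₀ < r₁) (ha : 0 < a) (hα : 0 < α) :
    ∃ u, IsClassicalSolution a α r₀ r₁ u ∧ IsRadial u ∧ 0 < energy r₀ r₁ u 0 := by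
  have hℓ : 0 < r₁ - r₀ := by linarith
  set ℓ : ℝ := r₁ - r₀ with hℓd
  have h2 : (0 : ℝ) < 2 ^ (α + 1) := by positivity
  have hrα : (0 : ℝ) < r₀ ^ α := by positivity
  set κ : ℝ := a / (2 ^ (α + 1) * r₀ ^ α) with hκ
  have hκ0 : 0 < κ := by positivity
  have hw := wt_shell (α := α) h0 hα hℓ
  obtain ⟨P, D, hS, cD, hD, hP, hb⟩ := exists_charSol hκ0 hα hw
  obtain ⟨W, v, w, hsm, hut, hux, hv, hwd, hpde, hu0, hul⟩ := build hS cD hD hP hb
  have hWx : ∀ t r, HasDerivAt (fun r => W t (r - r₀)) (w t (r - r₀)) r := by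
    intro t r
    have h1 := (hux t (r - r₀)).comp r ((hasDerivAt_id r).sub_const r₀)
    rw [mul_one] at h1
    exact h1
  refine ⟨fun t x => W t (‖x‖ - r₀) / ‖x‖, ⟨?_, ?_, ?_, ?_⟩, ?_, ?_⟩
  · refine ⟨{z | z.2 ≠ 0}, isOpen_ne.preimage continuous_snd, ?_, ?_⟩
    · rintro z ⟨_, hz, _⟩
      have : 0 < ‖z.2‖ := lt_of_lt_of_le h0 hz
      exact norm_pos_iff.mp this
    · intro z hz
      have hz' : z.2 ≠ 0 := hz
      have hn : ‖z.2‖ ≠ 0 := norm_ne_zero_iff.mpr hz'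
      apply ContDiffAt.contDiffWithinAt
      have c1 : ContDiffAt ℝ 2 (fun z : ℝ × EuclideanSpace ℝ (Fin 3) => ‖z.2‖) z :=
        contDiffAt_snd.norm ℝ hz'
      have c2 : ContDiffAt ℝ 2 (fun z : ℝ × EuclideanSpace ℝ (Fin 3) => W z.1 (‖z.2‖ - r₀)) z := by
        have := (hsm.contDiffAt (x := (z.1, ‖z.2‖ - r₀))).comp z
          (contDiffAt_fst.prodMk (c1.sub contDiffAt_const))
        exact this
      exact c2.div c1 hn
  · intro t x ht hx0 hx1
    have hxp : 0 < ‖x‖ := h0.trans hx0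
    have hxn : x ≠ 0 := norm_pos_iff.mp hxp
    obtain ⟨vt, wx, h3, h4, h5⟩ := hpde t ht.le (‖x‖ - r₀)
    have e1 : deriv (fun s => W s (‖x‖ - r₀) / ‖x‖) = fun s => v s (‖x‖ - r₀) / ‖x‖ :=
      funext fun s => ((hut s (‖x‖ - r₀)).div_const ‖x‖).deriv
    have e2 : iteratedDeriv 2 (fun s => W s (‖x‖ - r₀) / ‖x‖) t = vt / ‖x‖ := by
      rw [iteratedDeriv_succ, iteratedDeriv_one, e1]
      exact (h3.div_const ‖x‖).deriv
    have h6 : HasDerivAt (fun r => w t (r - r₀)) wx ‖x‖ := by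
      have h7 := h4.comp ‖x‖ ((hasDerivAt_id ‖x‖).sub_const r₀)
      rw [mul_one] at h7
      exact h7
    have e3 : (Δ (fun y : EuclideanSpace ℝ (Fin 3) => W t (‖y‖ - r₀) / ‖y‖)) x = wx / ‖x‖ :=
      laplacian_div (F := fun r => W t (r - r₀)) (F1 := fun r => w t (r - r₀)) hxn
        (Eventually.of_forall (hWx t)) h6
    show iteratedDeriv 2 (fun s => W s (‖x‖ - r₀) / ‖x‖) t -
      (Δ (fun y : EuclideanSpace ℝ (Fin 3) => W t (‖y‖ - r₀) / ‖y‖)) x +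
      a * (|deriv (fun s => W s (‖x‖ - r₀) / ‖x‖) t| ^ α *
        deriv (fun s => W s (‖x‖ - r₀) / ‖x‖) t) = 0
    rw [e2, e3, e1]
    simp only
    rw [bw_eq hℓ hx0.le (by rw [hℓd]; linarith)] at h5
    unfold Pool.Agent.Helper39_Wave.phi at h5
    rw [abs_div, abs_of_pos hxp, Real.div_rpow (abs_nonneg _) hxp.le, ← sub_div, h5,
      Real.div_rpow h0.le hxp.le]
    have e4 : 2 ^ (α + 1) * κ * r₀ ^ α = a := by rw [hκ]; field_simp
    have hxα : (0 : ℝ) < ‖x‖ ^ α := by positivity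
    calc _ = (-(2 ^ (α + 1) * κ * r₀ ^ α) + a) / ‖x‖ ^ α *
          (|v t (‖x‖ - r₀)| ^ α * v t (‖x‖ - r₀)) / ‖x‖ := by ring
      _ = 0 := by rw [e4]; ring
  · intro t x _ hx
    show W t (‖x‖ - r₀) / ‖x‖ = 0
    rw [hx, sub_self, hu0, zero_div]
  · intro t x ht hx
    show W t (‖x‖ - r₀) / ‖x‖ = 0
    rw [hx, hul t ht, zero_div]
  · intro t x y hxy
    show W t (‖x‖ - r₀) / ‖x‖ = W t (‖y‖ - r₀) / ‖y‖
    rw [hxy]
  · have hP0 : ∀ y, P 0 y = Real.cos (π / ℓ * y) := by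
      intro y
      rw [hP 0 y]; simp
    have hA0 : ∀ r, v 0 (r - r₀) = 0 := by
      intro r
      rw [hv, hP0, hP0, zero_add, zero_sub, mul_neg, Real.cos_neg]
      ring
    have hB0 : ∀ r, w 0 (r - r₀) = Real.cos (π / ℓ * (r - r₀)) := by
      intro r
      rw [hwd, hP0, hP0, zero_add, zero_sub, mul_neg, Real.cos_neg]
      ring
    rw [energy_eq (F := fun t r => W t (r - r₀)) (A := fun r => v 0 (r - r₀))
      (B := fun r => w 0 (r - r₀)) h0 h01 (fun _ _ _ => rfl)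
      (fun r _ => hut 0 (r - r₀)) (fun r _ => hWx 0 r)
      (by simp_rw [hA0]; exact continuousOn_const)
      (by simp_rw [hB0]; fun_prop)
      (by rw [sub_self, hu0]) (hul 0 le_rfl)]
    apply mul_pos c3_pos
    simp_rw [hA0, hB0]
    apply intervalIntegral.integral_pos h01
    · fun_prop
    · intro x _
      positivity
    · refine ⟨r₀, ⟨le_rfl, h01.le⟩, ?_⟩
      simp

/-- A classical radial solution in terms of the first derivatives of `r u`. -/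
theorem toClassical {a α r₀ r₁ : ℝ} (h0 : 0 < r₀) (h01 : r₀ < r₁) (ha : 0 < a) (hα : 0 < α)
    {u : ℝ → E3 → ℝ} (hu : IsClassicalSolution a α r₀ r₁ u) (hrad : IsRadial u) :
    ∃ v w : ℝ → ℝ → ℝ, Classical (a / r₀ ^ α) α (r₁ - r₀) (α / r₀)
        ((r₀ / (r₀ + (r₁ - r₀))) ^ α) (bw r₀ α (r₁ - r₀)) (bw1 r₀ α (r₁ - r₀)) v w ∧
      ∀ t, 0 ≤ t → energy r₀ r₁ u t =
        c3 * ∫ x in (0 : ℝ)..(r₁ - r₀), (v t x ^ 2 + w t x ^ 2) := by
  obtain ⟨⟨U, hUo, hUs, hUc⟩, hpde, hin, hout⟩ := hu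
  have hℓ : 0 < r₁ - r₀ := by linarith
  set ℓ : ℝ := r₁ - r₀ with hℓd
  set e : E3 := EuclideanSpace.single 0 1 with he
  have hen : ‖e‖ = 1 := by simp [he]
  have hre : ∀ r : ℝ, 0 ≤ r → ‖r • e‖ = r := by
    intro r hr
    rw [norm_smul, hen, mul_one, Real.norm_eq_abs, abs_of_nonneg hr]
  set F : ℝ × ℝ → ℝ := fun z => z.2 * u z.1 (z.2 • e) with hF
  have huF : ∀ (s : ℝ) (x : E3), x ≠ 0 → u s x = F (s, ‖x‖) / ‖x‖ := by
    intro s x hx
    have h1 : u s x = u s (‖x‖ • e) := hrad s _ _ (by rw [hre _ (norm_nonneg _)])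
    have h2 : ‖x‖ ≠ 0 := norm_ne_zero_iff.mpr hx
    show u s x = ‖x‖ * u s (‖x‖ • e) / ‖x‖
    rw [h1]
    field_simp
  have hFc : ∀ t r, 0 ≤ t → r₀ ≤ r → r ≤ r₁ → ContDiffAt ℝ 2 F (t, r) := by
    intro t r ht h1 h2
    have hrn := hre r (by linarith)
    have hmem : (t, r • e) ∈ U := hUs ⟨ht, by rw [hrn]; exact h1, by rw [hrn]; exact h2⟩
    have h3 : ContDiffAt ℝ 2 (fun z : ℝ × E3 => u z.1 z.2) (t, r • e) :=
      hUc.contDiffAt (hUo.mem_nhds hmem)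
    have h4 : ContDiffAt ℝ 2 (fun z : ℝ × ℝ => ((z.1, z.2 • e) : ℝ × E3)) (t, r) :=
      contDiffAt_fst.prodMk (contDiffAt_snd.smul contDiffAt_const)
    have h5 : ContDiffAt ℝ 2 (fun z : ℝ × ℝ => u z.1 (z.2 • e)) (t, r) :=
      ContDiffAt.comp (g := fun z : ℝ × E3 => u z.1 z.2)
        (f := fun z : ℝ × ℝ => ((z.1, z.2 • e) : ℝ × E3)) (t, r) h3 h4
    exact contDiffAt_snd.mul h5
  have hd1 : ∀ t r, 0 ≤ t → r₀ ≤ r → r ≤ r₁ → HasFDerivAt F (fderiv ℝ F (t, r)) (t, r) :=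
    fun t r ht h1 h2 => ((hFc t r ht h1 h2).differentiableAt (by norm_num)).hasFDerivAt
  have hFf : ∀ t r, 0 ≤ t → r₀ ≤ r → r ≤ r₁ → ContDiffAt ℝ 1 (fderiv ℝ F) (t, r) :=
    fun t r ht h1 h2 => (hFc t r ht h1 h2).fderiv_right (by norm_num)
  have hd2 : ∀ t r, 0 ≤ t → r₀ ≤ r → r ≤ r₁ →
      HasFDerivAt (fderiv ℝ F) (fderiv ℝ (fderiv ℝ F) (t, r)) (t, r) :=
    fun t r ht h1 h2 => ((hFf t r ht h1 h2).differentiableAt (by norm_num)).hasFDerivAt
  have hsymm : ∀ t r, 0 ≤ t → r₀ ≤ r → r ≤ r₁ → ∀ p q,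
      fderiv ℝ (fderiv ℝ F) (t, r) p q = fderiv ℝ (fderiv ℝ F) (t, r) q p :=
    fun t r ht h1 h2 p q => ((hFc t r ht h1 h2).isSymmSndFDerivAt (by simp)) p q
  set A : ℝ × ℝ → ℝ := fun z => fderiv ℝ F z (1, 0) with hA
  set B : ℝ × ℝ → ℝ := fun z => fderiv ℝ F z (0, 1) with hB
  have cA : ∀ t r, 0 ≤ t → r₀ ≤ r → r ≤ r₁ → ContinuousAt A (t, r) := fun t r ht h1 h2 =>
    ((hFf t r ht h1 h2).clm_apply contDiffAt_const).continuousAt
  have cB : ∀ t r, 0 ≤ t → r₀ ≤ r → r ≤ r₁ → ContinuousAt B (t, r) := fun t r ht h1 h2 =>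
    ((hFf t r ht h1 h2).clm_apply contDiffAt_const).continuousAt
  have hcurve : ∀ (c : ℝ → ℝ × ℝ) (p : ℝ × ℝ) (s t r : ℝ) (e : ℝ × ℝ), HasDerivAt c p s →
      c s = (t, r) → 0 ≤ t → r₀ ≤ r → r ≤ r₁ →
      HasDerivAt (fun s => fderiv ℝ F (c s) e) (fderiv ℝ (fderiv ℝ F) (t, r) p e) s := by
    intro c p s t r e hc hcs ht h1 h2
    have h3 := hd2 t r ht h1 h2
    rw [← hcs] at h3 ⊢
    have h4 := h3.comp_hasDerivAt s hc
    have h5 := (ContinuousLinearMap.apply ℝ ℝ e).hasFDerivAt.comp_hasDerivAt s h4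
    exact h5
  have hut : ∀ t r, 0 ≤ t → r₀ ≤ r → r ≤ r₁ → HasDerivAt (fun s => F (s, r)) (A (t, r)) t := by
    intro t r ht h1 h2
    have h3 : HasDerivAt (fun s : ℝ => ((s, r) : ℝ × ℝ)) ((1, 0) : ℝ × ℝ) t :=
      (hasDerivAt_id t).prodMk (hasDerivAt_const t r)
    exact (hd1 t r ht h1 h2).comp_hasDerivAt t h3
  have hux : ∀ t r, 0 ≤ t → r₀ ≤ r → r ≤ r₁ → HasDerivAt (fun y => F (t, y)) (B (t, r)) r := by
    intro t r ht h1 h2
    have h3 : HasDerivAt (fun y : ℝ => ((t, y) : ℝ × ℝ)) ((0, 1) : ℝ × ℝ) r :=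
      (hasDerivAt_const r t).prodMk (hasDerivAt_id r)
    exact (hd1 t r ht h1 h2).comp_hasDerivAt r h3
  have hrα : (0 : ℝ) < r₀ ^ α := by positivity
  -- the one-dimensional equation
  have hpde1 : ∀ t r, 0 < t → r₀ < r → r < r₁ →
      fderiv ℝ (fderiv ℝ F) (t, r) (1, 0) (1, 0) - fderiv ℝ (fderiv ℝ F) (t, r) (0, 1) (0, 1) =
        -(a / r₀ ^ α) * ((r₀ / r) ^ α * Pool.Agent.Helper39_Wave.phi α (A (t, r))) := by
    intro t r ht h1 h2
    have hr : 0 < r := by linarith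
    have hx0 : r • e ≠ 0 := by
      rw [← norm_ne_zero_iff, hre r hr.le]; exact hr.ne'
    have hxn : ‖r • e‖ = r := hre r hr.le
    have hfun : (fun s => u s (r • e)) = fun s => F (s, r) / r := by
      funext s
      rw [huF s _ hx0, hxn]
    have key := hpde t (r • e) ht (by rw [hxn]; exact h1) (by rw [hxn]; exact h2)
    have ed : deriv (fun s => u s (r • e)) t = A (t, r) / r := by
      rw [hfun]
      exact ((hut t r ht.le h1.le h2.le).div_const r).deriv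
    have e1 : deriv (fun s => u s (r • e)) =ᶠ[𝓝 t] fun s => A (s, r) / r := by
      filter_upwards [lt_mem_nhds ht] with s hs
      rw [hfun]
      exact ((hut s r hs.le h1.le h2.le).div_const r).deriv
    have e2 : iteratedDeriv 2 (fun s => u s (r • e)) t =
        fderiv ℝ (fderiv ℝ F) (t, r) (1, 0) (1, 0) / r := by
      rw [iteratedDeriv_succ, iteratedDeriv_one, e1.deriv_eq]
      have h3 : HasDerivAt (fun s : ℝ => ((s, r) : ℝ × ℝ)) ((1, 0) : ℝ × ℝ) t :=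
        (hasDerivAt_id t).prodMk (hasDerivAt_const t r)
      exact ((hcurve _ _ t t r (1, 0) h3 rfl ht.le h1.le h2.le).div_const r).deriv
    have e3 : (Δ (u t)) (r • e) = fderiv ℝ (fderiv ℝ F) (t, r) (0, 1) (0, 1) / r := by
      have h3 : u t =ᶠ[𝓝 (r • e)] fun y : E3 => F (t, ‖y‖) / ‖y‖ := by
        filter_upwards [isOpen_ne.mem_nhds hx0] with y hy
        exact huF t y hy
      have h4 : (Δ (u t)) (r • e) = (Δ (fun y : E3 => F (t, ‖y‖) / ‖y‖)) (r • e) :=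
        (laplacian_congr_nhds h3).self_of_nhds
      rw [h4]
      have h5 : ∀ᶠ ρ in 𝓝 ‖r • e‖, HasDerivAt (fun ρ => F (t, ρ)) (B (t, ρ)) ρ := by
        rw [hxn]
        filter_upwards [isOpen_Ioo.mem_nhds ⟨h1, h2⟩] with ρ hρ
        exact hux t ρ ht.le hρ.1.le hρ.2.le
      have h6 : HasDerivAt (fun ρ => B (t, ρ)) (fderiv ℝ (fderiv ℝ F) (t, r) (0, 1) (0, 1))
          ‖r • e‖ := by
        rw [hxn]
        have h3 : HasDerivAt (fun y : ℝ => ((t, y) : ℝ × ℝ)) ((0, 1) : ℝ × ℝ) r :=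
          (hasDerivAt_const r t).prodMk (hasDerivAt_id r)
        exact hcurve _ _ r t r (0, 1) h3 rfl ht.le h1.le h2.le
      rw [laplacian_div (F := fun ρ => F (t, ρ)) (F1 := fun ρ => B (t, ρ)) hx0 h5 h6, hxn]
    rw [e2, e3, ed, abs_div, abs_of_pos hr, Real.div_rpow (abs_nonneg _) hr.le] at key
    have hrr : (0 : ℝ) < r ^ α := by positivity
    unfold Pool.Agent.Helper39_Wave.phi
    rw [Real.div_rpow h0.le hr.le]
    field_simp at key ⊢
    linarith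
  have hvan : ∀ y : ℝ, r₀ ≤ y → y ≤ r₁ → (∀ t, 0 ≤ t → F (t, y) = 0) →
      ∀ t, 0 ≤ t → A (t, y) = 0 := by
    intro y hy1 hy2 hy t ht
    have h1 : HasDerivWithinAt (fun s => F (s, y)) (A (t, y)) (Ici 0) t :=
      (hut t y ht hy1 hy2).hasDerivWithinAt
    have h2 : HasDerivWithinAt (fun s => F (s, y)) 0 (Ici 0) t :=
      (hasDerivWithinAt_const t (Ici 0) (0 : ℝ)).congr (fun s hs => hy s hs) (hy t ht)
    exact (uniqueDiffOn_Ici (0 : ℝ) t ht).eq_deriv (Ici 0) h1 h2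
  have hF0 : ∀ t, 0 ≤ t → F (t, r₀) = 0 := by
    intro t ht
    show r₀ * u t (r₀ • e) = 0
    rw [hin t _ ht (hre r₀ h0.le), mul_zero]
  have hF1 : ∀ t, 0 ≤ t → F (t, r₁) = 0 := by
    intro t ht
    show r₁ * u t (r₁ • e) = 0
    rw [hout t _ ht (hre r₁ (h0.trans h01).le), mul_zero]
  set cl : ℝ × ℝ → ℝ × ℝ := fun z => (max z.1 0, r₀ + max 0 (min z.2 ℓ)) with hcl
  have ccl : Continuous cl := by
    apply (continuous_fst.max continuous_const).prodMk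
    exact continuous_const.add (continuous_const.max (continuous_snd.min continuous_const))
  have hcl1 : ∀ z, 0 ≤ (cl z).1 ∧ r₀ ≤ (cl z).2 ∧ (cl z).2 ≤ r₁ := by
    intro z
    refine ⟨le_max_right _ _, ?_, ?_⟩
    · have := le_max_left 0 (min z.2 ℓ)
      show r₀ ≤ r₀ + max 0 (min z.2 ℓ)
      linarith
    · have : max 0 (min z.2 ℓ) ≤ ℓ := max_le hℓ.le (min_le_right _ _)
      show r₀ + max 0 (min z.2 ℓ) ≤ r₁
      linarith
  have hcl2 : ∀ t x, 0 ≤ t → 0 ≤ x → x ≤ ℓ → cl (t, x) = (t, r₀ + x) := by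
    intro t x ht h1 h2
    show (max t 0, r₀ + max 0 (min x ℓ)) = (t, r₀ + x)
    rw [max_eq_left ht, min_eq_left h2, max_eq_right h1]
  have ev : ∀ t x s : ℝ, 0 < t → 0 < x → x < ℓ → ∀ c : ℝ → ℝ, Continuous c → c s = x → s = t →
      ∀ᶠ s in 𝓝 s, cl (s, c s) = (s, r₀ + c s) := by
    intro t x s ht h1 h2 c hc hcs hst
    have e1 : ∀ᶠ s in 𝓝 s, 0 < s := by rw [hst]; exact lt_mem_nhds ht
    have e2 : ∀ᶠ s in 𝓝 s, c s ∈ Ioo 0 ℓ :=
      hc.continuousAt.eventually (isOpen_Ioo.mem_nhds (by rw [hcs]; exact ⟨h1, h2⟩))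
    filter_upwards [e1, e2] with s hs hs2
    exact hcl2 s (c s) hs.le hs2.1.le hs2.2.le
  refine ⟨fun t x => A (cl (t, x)), fun t x => B (cl (t, x)), ?_, ?_⟩
  · refine ⟨by positivity, hα, wt_shell h0 hα hℓ, ?_, ?_, ?_, ?_, ?_, ?_, ?_⟩
    · rw [continuous_iff_continuousAt]
      intro z
      have h1 := hcl1 z
      exact ContinuousAt.comp (f := fun z : ℝ × ℝ => cl (z.1, z.2)) (g := A)
        (cA (cl z).1 (cl z).2 h1.1 h1.2.1 h1.2.2) ccl.continuousAt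
    · rw [continuous_iff_continuousAt]
      intro z
      have h1 := hcl1 z
      exact ContinuousAt.comp (f := fun z : ℝ × ℝ => cl (z.1, z.2)) (g := B)
        (cB (cl z).1 (cl z).2 h1.1 h1.2.1 h1.2.2) ccl.continuousAt
    · intro t ht
      show A (cl (t, 0)) = 0
      rw [hcl2 t 0 ht le_rfl hℓ.le, add_zero]
      exact hvan r₀ le_rfl h01.le hF0 t ht
    · intro t ht
      show A (cl (t, ℓ)) = 0
      rw [hcl2 t ℓ ht hℓ.le le_rfl, hℓd, add_sub_cancel]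
      exact hvan r₁ h01.le le_rfl hF1 t ht
    · intro t x ht h1 h2
      have hr1 : r₀ < r₀ + x := by linarith
      have hr2 : r₀ + x < r₁ := by linarith
      have hc : HasDerivAt (fun s : ℝ => ((s, r₀ + (x + t - s)) : ℝ × ℝ)) ((1, -1) : ℝ × ℝ) t :=
        (hasDerivAt_id t).prodMk (((hasDerivAt_id t).const_sub (x + t)).const_add r₀)
      have e0 : ((t, r₀ + (x + t - t)) : ℝ × ℝ) = (t, r₀ + x) := by
        rw [show x + t - t = x by ring]
      have h3 := (hcurve _ _ t t (r₀ + x) (0, 1) hc e0 ht.le hr1.le hr2.le).add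
        (hcurve _ _ t t (r₀ + x) (1, 0) hc e0 ht.le hr1.le hr2.le)
      have e1 : ((1, -1) : ℝ × ℝ) = (1, 0) - (0, 1) := by simp
      have e2 : fderiv ℝ (fderiv ℝ F) (t, r₀ + x) (1, -1) (0, 1) +
          fderiv ℝ (fderiv ℝ F) (t, r₀ + x) (1, -1) (1, 0) =
          -(a / r₀ ^ α) * (bw r₀ α ℓ x *
            Pool.Agent.Helper39_Wave.phi α (A (cl (t, x)))) := by
        have e3 : bw r₀ α ℓ x = (r₀ / (r₀ + x)) ^ α := by
          have := bw_eq (r₀ := r₀) (α := α) (r := r₀ + x) hℓ hr1.le (by linarith)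
          rw [add_sub_cancel_left] at this
          exact this
        rw [hcl2 t x ht.le h1.le h2.le, e3, ← hpde1 t (r₀ + x) ht hr1 hr2, e1, map_sub,
          _root_.sub_apply, _root_.sub_apply, hsymm _ _ ht.le hr1.le hr2.le (0, 1) (1, 0)]
        ring
      rw [e2] at h3
      refine h3.congr_of_eventuallyEq ?_
      filter_upwards [ev t x t ht h1 h2 (fun s => x + t - s) (by fun_prop) (by ring) rfl] with s hs
      show B (cl (s, x + t - s)) + A (cl (s, x + t - s)) = _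
      rw [hs]
      rfl
    · intro t x ht h1 h2
      have hr1 : r₀ < r₀ + x := by linarith
      have hr2 : r₀ + x < r₁ := by linarith
      have hc : HasDerivAt (fun s : ℝ => ((s, r₀ + (x - t + s)) : ℝ × ℝ)) ((1, 1) : ℝ × ℝ) t :=
        (hasDerivAt_id t).prodMk (((hasDerivAt_id t).const_add (x - t)).const_add r₀)
      have e0 : ((t, r₀ + (x - t + t)) : ℝ × ℝ) = (t, r₀ + x) := by
        rw [show x - t + t = x by ring]
      have h3 := (hcurve _ _ t t (r₀ + x) (0, 1) hc e0 ht.le hr1.le hr2.le).sub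
        (hcurve _ _ t t (r₀ + x) (1, 0) hc e0 ht.le hr1.le hr2.le)
      have e1 : ((1, 1) : ℝ × ℝ) = (1, 0) + (0, 1) := by simp
      have e2 : fderiv ℝ (fderiv ℝ F) (t, r₀ + x) (1, 1) (0, 1) -
          fderiv ℝ (fderiv ℝ F) (t, r₀ + x) (1, 1) (1, 0) =
          (a / r₀ ^ α) * (bw r₀ α ℓ x *
            Pool.Agent.Helper39_Wave.phi α (A (cl (t, x)))) := by
        have e3 : bw r₀ α ℓ x = (r₀ / (r₀ + x)) ^ α := by
          have := bw_eq (r₀ := r₀) (α := α) (r := r₀ + x) hℓ hr1.le (by linarith)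
          rw [add_sub_cancel_left] at this
          exact this
        have h4 := hpde1 t (r₀ + x) ht hr1 hr2
        rw [hcl2 t x ht.le h1.le h2.le, e3, e1, map_add, _root_.add_apply,
          _root_.add_apply, hsymm _ _ ht.le hr1.le hr2.le (0, 1) (1, 0)]
        linarith
      rw [e2] at h3
      refine h3.congr_of_eventuallyEq ?_
      filter_upwards [ev t x t ht h1 h2 (fun s => x - t + s) (by fun_prop) (by ring) rfl] with s hs
      show B (cl (s, x - t + s)) - A (cl (s, x - t + s)) = _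
      rw [hs]
      rfl
    · intro t ht
      have h1 : ∫ x in (0 : ℝ)..ℓ, B (cl (t, x)) = ∫ x in (0 : ℝ)..ℓ, B (t, r₀ + x) := by
        apply intervalIntegral.integral_congr
        intro x hx
        rw [uIcc_of_le hℓ.le] at hx
        simp only
        rw [hcl2 t x ht hx.1 hx.2]
      rw [h1, intervalIntegral.integral_comp_add_left (fun y => B (t, y)), add_zero, hℓd,
        add_sub_cancel]
      have cBI : ContinuousOn (fun y => B (t, y)) (Icc r₀ r₁) := by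
        intro y hy
        exact (ContinuousAt.comp (f := fun y : ℝ => (t, y)) (g := B)
          (cB t y ht hy.1 hy.2) (by fun_prop)).continuousWithinAt
      rw [intervalIntegral.integral_eq_sub_of_hasDerivAt (f := fun y => F (t, y))
        (fun y hy => by
          rw [uIcc_of_le h01.le] at hy
          exact hux t y ht hy.1 hy.2)
        (cBI.intervalIntegrable_of_Icc h01.le), hF0 t ht, hF1 t ht, sub_zero]
  · intro t ht
    have cAI : ContinuousOn (fun y => A (t, y)) (Icc r₀ r₁) := by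
      intro y hy
      exact (ContinuousAt.comp (f := fun y : ℝ => (t, y)) (g := A)
        (cA t y ht hy.1 hy.2) (by fun_prop)).continuousWithinAt
    have cBI : ContinuousOn (fun y => B (t, y)) (Icc r₀ r₁) := by
      intro y hy
      exact (ContinuousAt.comp (f := fun y : ℝ => (t, y)) (g := B)
        (cB t y ht hy.1 hy.2) (by fun_prop)).continuousWithinAt
    rw [energy_eq (F := fun t r => F (t, r)) (A := fun r => A (t, r)) (B := fun r => B (t, r))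
      h0 h01 huF (fun r hr => hut t r ht hr.1 hr.2) (fun r hr => hux t r ht hr.1 hr.2) cAI cBI
      (hF0 t ht) (hF1 t ht)]
    congr 1
    have h1 : ∫ x in (0 : ℝ)..ℓ, (A (cl (t, x)) ^ 2 + B (cl (t, x)) ^ 2) =
        ∫ x in (0 : ℝ)..ℓ, (A (t, r₀ + x) ^ 2 + B (t, r₀ + x) ^ 2) := by
      apply intervalIntegral.integral_congr
      intro x hx
      rw [uIcc_of_le hℓ.le] at hx
      simp only
      rw [hcl2 t x ht hx.1 hx.2]
    rw [h1, intervalIntegral.integral_comp_add_left (fun y => A (t, y) ^ 2 + B (t, y) ^ 2),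
      add_zero, hℓd, add_sub_cancel]

/-- **Sharp energy decay in three-dimensional spherical shells.** -/
theorem result (r₀ r₁ a α : ℝ) (h0 : 0 < r₀) (h01 : r₀ < r₁) (ha : 0 < a) (hα : 0 < α) :
    (∃ u, IsClassicalSolution a α r₀ r₁ u ∧ IsRadial u ∧ 0 < energy r₀ r₁ u 0) ∧
    ∀ u, IsClassicalSolution a α r₀ r₁ u → IsRadial u → 0 < energy r₀ r₁ u 0 →
      ∃ c C : ℝ, 0 < c ∧ c ≤ C ∧ ∀ t : ℝ, 0 ≤ t →
        c * (1 + t) ^ (-(2 / α)) ≤ energy r₀ r₁ u t ∧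
          energy r₀ r₁ u t ≤ C * (1 + t) ^ (-(2 / α)) := by
  refine ⟨exists_solution h0 h01 ha hα, ?_⟩
  intro u hu hrad hE0
  obtain ⟨v, w, hcl, hE⟩ := toClassical h0 h01 ha hα hu hrad
  have hc3 := c3_pos
  rw [hE 0 le_rfl] at hE0
  have hE0' := (mul_pos_iff_of_pos_left hc3).mp hE0
  obtain ⟨c, C, hc, hC, hr⟩ := hcl.rate hE0'
  refine ⟨c3 * c, c3 * C, by positivity, ?_, ?_⟩
  · apply mul_le_mul_of_nonneg_left _ hc3.le
    have := hr 0 le_rfl
    simp only [add_zero, Real.one_rpow, mul_one] at this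
    linarith [this.1, this.2]
  · intro t ht
    rw [hE t ht, mul_assoc, mul_assoc]
    exact ⟨mul_le_mul_of_nonneg_left (hr t ht).1 hc3.le,
      mul_le_mul_of_nonneg_left (hr t ht).2 hc3.le⟩

end Pool.Agent.BEC.Shell
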