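import Pool.Agent.Helper27_BEC.MOL
import Pool.Agent.Helper96_BEC.HZC
import Pool.Agent.Helper29_BEC.SHD
import Pool.Agent.Helper75_BEC.CSE
import Pool.Agent.Helper49_BEC.LDF
import Pool.Agent.Helper59_BEC.GRE
import Pool.Agent.Helper29_BEC.WEK
import Pool.Agent.Helper49_BEC.SHR

/-!
Squad BEC: assembly. Every shell of `ℝ³` and every `α > 0`.
-/

set_option autoImplicit false

namespace Pool.Agent.BEC.All

open Pool.Agent.BEC

theorem cse : CseStmt := H75.cse

/-- The shells of `ℝ³`. -/
theorem shr : ShrStmt :=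
  H49.shr (H96.hzc H27.mol) H29.shd cse (H49.ldf cse) (H29.wek cse H59.gre)

end Pool.Agent.BEC.All
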